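import Pool.Agent.H159.SSq.Stm

/-!
# Every shuffle square has a canonical parse
-/

set_option autoImplicit false

namespace Pool.Agent.Q210.SSq

open Finset Pool.Agent.H159.SSq

/-- the first clause of `Can` -/
def Cp {k n : ℕ} (A : Finset ℕ) (w : Fin (2 * n) → ZMod k) : Prop :=
  ∀ s t, s < 2 * n → t < 2 * n → M A s t → ext w s = ext w t

/-- move a push by one -/
def flip (A : Finset ℕ) (t : ℕ) : Finset ℕ := insert (t + 1) (A.erase t)

theorem mem_flip {A : Finset ℕ} {t s : ℕ} : s ∈ flip A t ↔ s = t + 1 ∨ (s ≠ t ∧ s ∈ A) := by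
  unfold flip
  rw [mem_insert, mem_erase]

theorem pu_flip {A : Finset ℕ} {t : ℕ} (ht : t ∈ A) (ht1 : t + 1 ∉ A) :
    (∀ s, s ≠ t + 1 → pu (flip A t) s = pu A s) ∧ pu (flip A t) (t + 1) = pu A t := by
  have h1 : ∀ s, s ≤ t → pu (flip A t) s = pu A s := by
    intro s hs
    apply pu_congr
    intro s' hs'
    rw [mem_flip]
    constructor
    · rintro (h | h)
      · omega
      · exact h.2
    · exact fun h => Or.inr ⟨by omega, h⟩
  have h2 : pu (flip A t) (t + 1) = pu A t := by
    rw [pu_succ, if_neg (by rw [mem_flip]; omega), h1 t le_rfl, add_zero]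
  have h3 : ∀ s, t + 2 ≤ s → pu (flip A t) s = pu A s := by
    intro s hs
    induction s, hs using Nat.le_induction with
    | base =>
      rw [pu_succ (flip A t) (t + 1), h2, if_pos (by rw [mem_flip]; exact Or.inl rfl),
        pu_succ A (t + 1), if_neg ht1, pu_succ A t, if_pos ht]
    | succ s hs ih =>
      have h4 : s ∈ flip A t ↔ s ∈ A := by
        rw [mem_flip]
        constructor
        · rintro (h | h)
          · omega
          · exact h.2
        · exact fun h => Or.inr ⟨by omega, h⟩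
      rw [pu_succ, pu_succ, ih]
      simp only [h4]
  refine ⟨fun s hs => ?_, h2⟩
  rcases Nat.lt_or_ge s (t + 1) with h | h
  · exact h1 s (by omega)
  · exact h3 s (by omega)

theorem po_flip {A : Finset ℕ} {t : ℕ} (ht : t ∈ A) (ht1 : t + 1 ∉ A) :
    (∀ s, s ≠ t + 1 → po (flip A t) s = po A s) ∧ po (flip A t) (t + 1) = po A t + 1 := by
  obtain ⟨h1, h2⟩ := pu_flip ht ht1
  refine ⟨fun s hs => ?_, ?_⟩
  · have h3 := h1 s hs
    have h4 := pu_add_po A s
    have h5 := pu_add_po (flip A t) s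
    omega
  · have h4 := pu_add_po A t
    have h5 := pu_add_po (flip A t) (t + 1)
    omega

/-- a compatible parse which is not canonical can be moved to the right -/
theorem move {k n : ℕ} {A : Finset ℕ} {w : Fin (2 * n) → ZMod k} (hA : Dy n A) (hw : Cp A w)
    {t : ℕ} (ht : t ∈ PK n A) (ht2 : t + 1 < 2 * n) (he : ext w t = ext w (t + 1)) :
    Dy n (flip A t) ∧ Cp (flip A t) w ∧ ∑ a ∈ A, a < ∑ a ∈ flip A t, a := by
  unfold PK at ht
  rw [mem_filter, mem_range] at ht
  obtain ⟨h0, h1, h2, h3⟩ := ht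
  obtain ⟨p1, p2⟩ := pu_flip h1 h2
  obtain ⟨q1, q2⟩ := po_flip h1 h2
  refine ⟨⟨?_, ?_, ?_⟩, ?_, ?_⟩
  · intro s hs
    rw [mem_flip] at hs
    rcases hs with hs | hs
    · rw [mem_range]
      omega
    · exact hA.1 hs.2
  · rw [p1 _ (by omega)]
    exact hA.2.1
  · intro s hs
    by_cases h4 : s = t + 1
    · subst h4
      rw [p2, q2]
      omega
    · rw [p1 s h4, q1 s h4]
      exact hA.2.2 s hs
  · rintro s u hs hu ⟨m1, m2, m3⟩
    rw [mem_flip] at m1 m2
    push Not at m2
    obtain ⟨m2a, m2b⟩ := m2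
    rw [q1 u m2a] at m3
    rcases m1 with m1 | ⟨m1a, m1b⟩
    · subst m1
      rw [p2] at m3
      by_cases hut : u = t
      · subst hut
        omega
      · rw [← he]
        exact hw t u h0 hu ⟨h1, m2b hut, m3⟩
    · have hst : s ≠ t + 1 := by
        rintro rfl
        exact h2 m1b
      rw [p1 s hst] at m3
      by_cases hut : u = t
      · subst hut
        have h5 := po_succ A u
        rw [if_pos h1, add_zero] at h5
        rw [he]
        exact hw s (u + 1) hs ht2 ⟨m1b, h2, by rw [h5]; exact m3⟩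
      · exact hw s u hs hu ⟨m1b, m2b hut, m3⟩
  · unfold flip
    rw [sum_insert (by rw [mem_erase]; exact fun h => h2 h.2)]
    have h4 := Finset.add_sum_erase A (fun a => a) h1
    omega

/-- counting a strictly increasing sequence -/
theorem card_lt {n : ℕ} (p : Fin n → ℕ) (hp : StrictMono p) (i : Fin n) :
    (univ.filter fun j => p j < p i).card = i := by
  have h1 : (univ.filter fun j => p j < p i) = Finset.Iio i := by
    ext j
    rw [mem_filter, mem_Iio]
    exact ⟨fun h => hp.lt_iff_lt.mp h.2, fun h => ⟨mem_univ _, hp.lt_iff_lt.mpr h⟩⟩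
  rw [h1, Fin.card_Iio]

theorem can : S_can := by
  classical
  intro k n _ w hw
  obtain ⟨f, g, hf, hg, hfg, hwfg⟩ := hw
  -- the first parse
  obtain ⟨p, hpdef⟩ : ∃ p : Fin n → Fin (2 * n), ∀ i, p i = min (f i) (g i) := ⟨_, fun _ => rfl⟩
  obtain ⟨q, hqdef⟩ : ∃ q : Fin n → Fin (2 * n), ∀ i, q i = max (f i) (g i) := ⟨_, fun _ => rfl⟩
  have hp : StrictMono p := by
    intro i j hij
    rw [hpdef, hpdef]
    exact lt_min ((min_le_left _ _).trans_lt (hf hij)) ((min_le_right _ _).trans_lt (hg hij))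
  have hq : StrictMono q := by
    intro i j hij
    rw [hqdef, hqdef]
    exact max_lt ((hf hij).trans_le (le_max_left _ _)) ((hg hij).trans_le (le_max_right _ _))
  have hpq : ∀ i, p i < q i := by
    intro i
    rw [hpdef, hqdef]
    exact min_lt_max.mpr (hfg i i)
  have hcase : ∀ i, (p i = f i ∧ q i = g i) ∨ (p i = g i ∧ q i = f i) := by
    intro i
    rw [hpdef, hqdef]
    rcases le_total (f i) (g i) with h | h
    · left
      exact ⟨min_eq_left h, max_eq_right h⟩
    · right
      exact ⟨min_eq_right h, max_eq_left h⟩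
  have hdisj : ∀ i j, p i ≠ q j := by
    intro i j h
    rcases eq_or_ne i j with hij | hij
    · subst hij
      exact (hpq i).ne h
    · rcases hcase i with ⟨h1, _⟩ | ⟨h1, _⟩ <;> rcases hcase j with ⟨_, h2⟩ | ⟨_, h2⟩
      · rw [h1, h2] at h
        exact hfg i j h
      · rw [h1, h2] at h
        exact hij (hf.injective h)
      · rw [h1, h2] at h
        exact hij (hg.injective h)
      · rw [h1, h2] at h
        exact hfg j i h.symm
  have hall : ∀ t : Fin (2 * n), (∃ i, p i = t) ∨ ∃ i, q i = t := by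
    have hinj : Function.Injective (Sum.elim p q) := by
      rintro (i | i) (j | j) h
      · exact congrArg Sum.inl (hp.injective h)
      · exact absurd h (hdisj i j)
      · exact absurd h.symm (hdisj j i)
      · exact congrArg Sum.inr (hq.injective h)
    have hbij := (Fintype.bijective_iff_injective_and_card (Sum.elim p q)).mpr
      ⟨hinj, by simp; ring⟩
    intro t
    obtain ⟨i | i, hi⟩ := hbij.2 t
    · exact Or.inl ⟨i, hi⟩
    · exact Or.inr ⟨i, hi⟩
  obtain ⟨A, hAdef⟩ : ∃ A : Finset ℕ, A = univ.image fun i => (p i : ℕ) := ⟨_, rfl⟩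
  have hpA : ∀ i, (p i : ℕ) ∈ A := fun i => by
    rw [hAdef]
    exact mem_image_of_mem _ (mem_univ i)
  have hqA : ∀ i, (q i : ℕ) ∉ A := by
    intro i h
    rw [hAdef, mem_image] at h
    obtain ⟨j, -, hj⟩ := h
    exact hdisj j i (Fin.ext hj)
  have hmemA : ∀ t, t ∈ A → ∃ i, (p i : ℕ) = t := by
    intro t ht
    rw [hAdef, mem_image] at ht
    obtain ⟨j, -, hj⟩ := ht
    exact ⟨j, hj⟩
  have hnotA : ∀ t, t < 2 * n → t ∉ A → ∃ i, (q i : ℕ) = t := by
    intro t ht htA
    rcases hall ⟨t, ht⟩ with ⟨i, hi⟩ | ⟨i, hi⟩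
    · exfalso
      apply htA
      have := hpA i
      rwa [hi] at this
    · exact ⟨i, by rw [hi]⟩
  have hpu : ∀ t, pu A t = (univ.filter fun i => (p i : ℕ) < t).card := by
    intro t
    unfold pu
    have h1 : ((range t).filter (· ∈ A)) = (univ.filter fun i => (p i : ℕ) < t).image
        fun i => (p i : ℕ) := by
      ext s
      rw [mem_filter, mem_range, mem_image]
      constructor
      · rintro ⟨h1, h2⟩
        obtain ⟨i, rfl⟩ := hmemA s h2
        exact ⟨i, by rw [mem_filter]; exact ⟨mem_univ _, h1⟩, rfl⟩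
      · rintro ⟨i, hi, rfl⟩
        rw [mem_filter] at hi
        exact ⟨hi.2, hpA i⟩
    rw [h1, card_image_of_injective _ fun i j h => hp.injective (Fin.ext h)]
  have hpo : ∀ t ≤ 2 * n, po A t = (univ.filter fun i => (q i : ℕ) < t).card := by
    intro t ht
    unfold po
    have h1 : ((range t).filter (· ∉ A)) = (univ.filter fun i => (q i : ℕ) < t).image
        fun i => (q i : ℕ) := by
      ext s
      rw [mem_filter, mem_range, mem_image]
      constructor
      · rintro ⟨h1, h2⟩
        obtain ⟨i, rfl⟩ := hnotA s (by omega) h2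
        exact ⟨i, by rw [mem_filter]; exact ⟨mem_univ _, h1⟩, rfl⟩
      · rintro ⟨i, hi, rfl⟩
        rw [mem_filter] at hi
        exact ⟨hi.2, hqA i⟩
    rw [h1, card_image_of_injective _ fun i j h => hq.injective (Fin.ext h)]
  have hDy : Dy n A := by
    refine ⟨?_, ?_, ?_⟩
    · intro t ht
      obtain ⟨i, rfl⟩ := hmemA t ht
      rw [mem_range]
      exact (p i).2
    · rw [hpu, filter_true_of_mem fun i _ => (p i).2, card_univ, Fintype.card_fin]
    · intro t ht
      rw [hpu, hpo t ht]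
      refine card_le_card fun i hi => ?_
      rw [mem_filter] at hi ⊢
      exact ⟨hi.1, (Fin.lt_def.mp (hpq i)).trans hi.2⟩
  have hpm : StrictMono fun i => (p i : ℕ) := fun i j hij => Fin.lt_def.mp (hp hij)
  have hqm : StrictMono fun i => (q i : ℕ) := fun i j hij => Fin.lt_def.mp (hq hij)
  have hCp : Cp A w := by
    rintro s t hs ht ⟨h1, h2, h3⟩
    obtain ⟨i, rfl⟩ := hmemA s h1
    obtain ⟨j, rfl⟩ := hnotA t ht h2
    rw [hpu, hpo _ (by omega), card_lt _ hpm i, card_lt _ hqm j] at h3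
    have h4 : i = j := Fin.ext h3
    subst h4
    unfold Pool.Agent.H159.SSq.ext
    rw [dif_pos (p i).2, dif_pos (q i).2]
    change w (p i) = w (q i)
    rcases hcase i with ⟨h5, h6⟩ | ⟨h5, h6⟩
    · rw [h5, h6]
      exact hwfg i
    · rw [h5, h6]
      exact (hwfg i).symm
  -- a compatible parse with the largest sum
  obtain ⟨F, hFdef⟩ : ∃ F : Finset (Finset ℕ), F =
      (range (2 * n)).powerset.filter fun A => Dy n A ∧ Cp A w := ⟨_, rfl⟩
  have hF : ∀ B, B ∈ F ↔ Dy n B ∧ Cp B w := by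
    intro B
    rw [hFdef, mem_filter, mem_powerset]
    exact ⟨fun h => h.2, fun h => ⟨h.1.1, h⟩⟩
  obtain ⟨B, hB, hmax⟩ := exists_max_image F (fun B => ∑ a ∈ B, a) ⟨A, (hF A).mpr ⟨hDy, hCp⟩⟩
  obtain ⟨hB1, hB2⟩ := (hF B).mp hB
  refine ⟨B, hB1, ?_⟩
  unfold Cw
  rw [mem_filter]
  refine ⟨mem_univ _, hB2, fun t ht ht2 he => ?_⟩
  obtain ⟨h1, h2, h3⟩ := move hB1 hB2 ht ht2 he
  have h4 := hmax _ ((hF _).mpr ⟨h1, h2⟩)
  omega

end Pool.Agent.Q210.SSq
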