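import Pool.Agent.H159.SSq.Stm

/-!
# Upper bounds for the number of words
-/

set_option autoImplicit false

namespace Pool.Agent.Q210.SSq

open Finset Pool.Agent.H159.SSq

/-- words which are determined by few letters -/
theorem card_words {k N : ℕ} [NeZero k] (S : Finset (Fin N → ZMod k)) (Mi Q : Finset ℕ)
    (hQ : Q ⊆ Mi) (h1 : ∀ t < N, t ∉ Mi → ∃ s < t, ∀ w ∈ S, ext w t = ext w s)
    (h2 : ∀ t ∈ Q, ∃ s < t, ∀ w ∈ S, ext w t ≠ ext w s) :
    S.card ≤ k ^ (Mi \ Q).card * (k - 1) ^ Q.card := by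
  classical
  choose! x hx hx2 using h2
  have hcard : (Fintype.piFinset fun t : Mi => if (t : ℕ) ∈ Q then (univ : Finset (ZMod k)).erase 0
      else univ).card = k ^ (Mi \ Q).card * (k - 1) ^ Q.card := by
    rw [Fintype.card_piFinset]
    have e1 : ∀ t : Mi, (if (t : ℕ) ∈ Q then (univ : Finset (ZMod k)).erase 0 else univ).card =
        if (t : ℕ) ∈ Q then k - 1 else k := by
      intro t
      split_ifs
      · rw [card_erase_of_mem (mem_univ _), card_univ, ZMod.card]
      · rw [card_univ, ZMod.card]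
    rw [prod_congr rfl fun t _ => e1 t]
    rw [Finset.prod_coe_sort Mi fun t => if t ∈ Q then k - 1 else k]
    rw [prod_ite, prod_const, prod_const, mul_comm]
    congr 2
    · congr 1
      ext t
      rw [mem_filter, mem_sdiff]
    · congr 1
      ext t
      rw [mem_filter]
      exact ⟨fun h => h.2, fun h => ⟨hQ h, h⟩⟩
  rw [← hcard]
  refine card_le_card_of_injOn
    (fun w => fun t : Mi => ext w t - if (t : ℕ) ∈ Q then ext w (x t) else 0) ?_ ?_
  · intro w hw
    rw [mem_coe, Fintype.mem_piFinset]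
    intro t
    by_cases h : (t : ℕ) ∈ Q
    · simp only [if_pos h]
      rw [mem_erase]
      exact ⟨sub_ne_zero.mpr (hx2 t h w hw), mem_univ _⟩
    · simp only [if_neg h]
      exact mem_univ _
  · intro w hw w' hw' heq
    have key : ∀ t, t < N → ext w t = ext w' t := by
      intro t
      induction t using Nat.strong_induction_on with
      | h t ih =>
        intro ht
        by_cases hM : t ∈ Mi
        · have h3 := congrFun heq ⟨t, hM⟩
          simp only at h3
          by_cases hq : t ∈ Q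
          · rw [if_pos hq, if_pos hq, ih (x t) (hx t hq) ((hx t hq).trans ht)] at h3
            exact sub_left_inj.mp h3
          · rw [if_neg hq, if_neg hq, sub_zero, sub_zero] at h3
            exact h3
        · obtain ⟨s, hs, hs2⟩ := h1 t ht hM
          rw [hs2 w hw, hs2 w' hw', ih s hs (hs.trans ht)]
    funext i
    have h3 := key i i.2
    unfold Pool.Agent.H159.SSq.ext at h3
    rwa [dif_pos i.2, dif_pos i.2] at h3

theorem exists_match {n : ℕ} {A : Finset ℕ} (hA : Dy n A) {t : ℕ} (ht : t < 2 * n) (htA : t ∉ A) :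
    ∃ s < t, M A s t := by
  have h1 := hA.2.2 (t + 1) (by omega)
  rw [pu_succ, po_succ, if_neg htA, if_neg htA] at h1
  obtain ⟨s, hs, hsA, hs2⟩ := exists_push A (t := t) (i := po A t) (by omega)
  exact ⟨s, hs, hsA, htA, hs2⟩

theorem peak_lt {n : ℕ} {A : Finset ℕ} (hA : Dy n A) {t : ℕ} (ht : t ∈ PK n A) :
    t + 1 < 2 * n ∧ ∃ s < t, M A s (t + 1) := by
  unfold PK at ht
  rw [mem_filter, mem_range] at ht
  obtain ⟨h0, h1, h2, h3⟩ := ht
  have h4 := po_succ A t
  have h5 := pu_succ A t
  rw [if_pos h1] at h4 h5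
  constructor
  · by_contra hlt
    have h6 : t + 1 = 2 * n := by omega
    have h7 := hA.2.1
    have h8 := pu_add_po A (2 * n)
    rw [h6] at h4 h5
    omega
  · obtain ⟨s, hs, hsA, hs2⟩ := exists_push A (t := t) (i := po A (t + 1)) (by omega)
    exact ⟨s, hs, hsA, h2, hs2⟩

theorem mem_Cw {k n : ℕ} [NeZero k] {A : Finset ℕ} {w : Fin (2 * n) → ZMod k} :
    w ∈ Cw k n A ↔ Can A w := by
  classical
  unfold Cw
  rw [mem_filter]
  exact ⟨fun h => h.2, fun h => ⟨mem_univ _, h⟩⟩

theorem PK_sub (n : ℕ) (A : Finset ℕ) : PK n A ⊆ A := by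
  intro t ht
  unfold PK at ht
  rw [mem_filter] at ht
  exact ht.2.1

theorem card_dy {n : ℕ} {A : Finset ℕ} (hA : Dy n A) : A.card = n := by
  have h1 := hA.2.1
  unfold pu at h1
  rw [filter_mem_eq_inter, inter_eq_right.mpr hA.1] at h1
  exact h1

/-- upper bound for the number of words of one parse -/
theorem up : S_up := by
  intro k n _ A hA
  have hc := card_dy hA
  have hsub := PK_sub n A
  refine ⟨(card_le_card hsub).trans hc.le, ?_⟩
  have h := card_words (Cw k n A) A (PK n A) hsub ?_ ?_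
  · rwa [card_sdiff_of_subset hsub, hc] at h
  · intro t ht htA
    obtain ⟨s, hs, hM⟩ := exists_match hA ht htA
    exact ⟨s, hs, fun w hw => ((mem_Cw.mp hw).1 s t (hs.trans ht) ht hM).symm⟩
  · intro t ht
    obtain ⟨h1, s, hs, hM⟩ := peak_lt hA ht
    refine ⟨s, hs, fun w hw => ?_⟩
    rw [(mem_Cw.mp hw).1 s (t + 1) (by omega) h1 hM]
    exact (mem_Cw.mp hw).2 t ht h1

theorem ext_conn {k n : ℕ} [NeZero k] {A B : Finset ℕ} {w : Fin (2 * n) → ZMod k}
    (hA : w ∈ Cw k n A) (hB : w ∈ Cw k n B) {u v : ℕ} (h : Conn n A B u v) :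
    ext w u = ext w v := by
  induction h with
  | rel s t h =>
    obtain ⟨h1, h2, h3 | h3⟩ := h
    · exact (mem_Cw.mp hA).1 s t h1 h2 h3
    · exact (mem_Cw.mp hB).1 s t h1 h2 h3
  | refl s => rfl
  | symm s t _ ih => exact ih.symm
  | trans s t u _ _ ih1 ih2 => exact ih1.trans ih2

/-- upper bound for the number of common words of two parses -/
theorem cntb : S_cnt := by
  classical
  intro k n _ A B hn hA hB
  have hMn : ∀ v, v ∈ Mn n A B ↔ v < 2 * n ∧ ∀ u, Conn n A B u v → v ≤ u := by
    intro v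
    unfold Mn
    rw [mem_filter, mem_range]
  have hAB : Mn n A B ⊆ A ∩ B := by
    intro v hv
    obtain ⟨h1, h2⟩ := (hMn v).mp hv
    rw [mem_inter]
    constructor
    · by_contra hvA
      obtain ⟨s, hs, hM⟩ := exists_match hA.dy h1 hvA
      have := h2 s (Relation.EqvGen.rel s v ⟨hs.trans h1, h1, Or.inl hM⟩)
      omega
    · by_contra hvB
      obtain ⟨s, hs, hM⟩ := exists_match hB.dy h1 hvB
      have := h2 s (Relation.EqvGen.rel s v ⟨hs.trans h1, h1, Or.inr hM⟩)
      omega
  refine ⟨hAB, ?_⟩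
  have h := card_words (Cw k n A ∩ Cw k n B) (Mn n A B) (Mn n A B ∩ PU n A B)
    inter_subset_left ?_ ?_
  · rwa [sdiff_inter_self_left] at h
  · intro t ht htM
    rw [hMn] at htM
    push Not at htM
    obtain ⟨u, hu, hlt⟩ := htM ht
    refine ⟨u, hlt, fun w hw => ?_⟩
    rw [mem_inter] at hw
    exact (ext_conn hw.1 hw.2 hu).symm
  · intro t ht
    rw [mem_inter] at ht
    have ht2 := ht.2
    unfold PU at ht2
    rw [mem_filter, mem_range] at ht2
    obtain ⟨h0, h1, h2, h3, h4, h5, x, hx, hxA, hxB, h6, h7⟩ := ht2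
    have e1 := pu_succ A t
    have e2 := po_succ A t
    rw [if_pos h2] at e1 e2
    have ht1 : 1 ≤ t := by
      by_contra h8
      have h9 : t = 0 := by omega
      subst h9
      have e3 := pu_succ A 1
      have e4 := po_succ A 1
      rw [if_neg h4] at e3 e4
      have e5 := hA.2.2 2 (by omega) (by omega)
      have e6 : pu A 0 = 0 := by simp [pu]
      have e7 : po A 0 = 0 := by simp [po]
      simp only [zero_add] at e1 e2 h4 e3 e4
      norm_num at e3 e4
      omega
    have h8 := hA.2.2 t ht1 h0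
    have hxt : x < t := by
      rcases Nat.lt_or_ge x t with h9 | h9
      · exact h9
      · have h10 : x = t := by omega
        subst h10
        omega
    refine ⟨x, hxt, fun w hw => ?_⟩
    rw [mem_inter] at hw
    rw [(mem_Cw.mp hw.1).1 x (t + 1) (by omega) h1 ⟨hxA, h4, h6⟩]
    refine (mem_Cw.mp hw.1).2 t ?_ h1
    unfold PK
    rw [mem_filter, mem_range]
    exact ⟨h0, h2, h4, h8⟩

end Pool.Agent.Q210.SSq
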